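import Pool.Agent.Y703.CT.StmF

/-!
# Diagonal cubic forms in three variables over finite fields have nontrivial zeros
-/

set_option autoImplicit false

namespace Pool.Agent.Y319.CT

open Pool.Agent.Y703.CT

section

variable {F : Type} [Field F] [Fintype F] [DecidableEq F]

/-- the nonzero elements of the form `a t³` -/
def Cc (a : F) : Finset F := (Finset.univ.filter fun t : F => t ≠ 0).image fun t => a * t ^ 3

theorem mem_Cc {a x : F} : x ∈ Cc a ↔ ∃ t : F, t ≠ 0 ∧ a * t ^ 3 = x := by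
  unfold Cc
  rw [Finset.mem_image]
  constructor
  · rintro ⟨t, ht, h⟩
    exact ⟨t, (Finset.mem_filter.1 ht).2, h⟩
  · rintro ⟨t, ht, h⟩
    exact ⟨t, Finset.mem_filter.2 ⟨Finset.mem_univ _, ht⟩, h⟩

theorem Cc_card {a : F} (ha : a ≠ 0) : (Cc a).card = (Cc (1 : F)).card := by
  have h1 : Cc a = (Cc (1 : F)).image fun x => a * x := by
    ext x
    rw [mem_Cc, Finset.mem_image]
    constructor
    · rintro ⟨t, ht, rfl⟩
      exact ⟨t ^ 3, mem_Cc.2 ⟨t, ht, one_mul _⟩, rfl⟩
    · rintro ⟨y, hy, rfl⟩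
      obtain ⟨t, ht, rfl⟩ := mem_Cc.1 hy
      exact ⟨t, ht, by rw [one_mul]⟩
  rw [h1, Finset.card_image_of_injective _ (mul_right_injective₀ ha)]

theorem Cc_ne {a x : F} (ha : a ≠ 0) (hx : x ∈ Cc a) : x ≠ 0 := by
  obtain ⟨t, ht, rfl⟩ := mem_Cc.1 hx
  exact mul_ne_zero ha (pow_ne_zero 3 ht)

theorem card_ne_le : (Finset.univ.filter fun t : F => t ≠ 0).card ≤ 3 * (Cc (1 : F)).card := by
  refine Finset.card_le_mul_card_image _ 3 fun c _ => ?_
  have h1 : (Finset.univ.filter fun t : F => t ≠ 0).filter (fun x => (1 : F) * x ^ 3 = c) ⊆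
      (Polynomial.nthRoots 3 c).toFinset := by
    intro x hx
    rw [Multiset.mem_toFinset, Polynomial.mem_nthRoots (by norm_num)]
    have := (Finset.mem_filter.1 hx).2
    rwa [one_mul] at this
  calc _ ≤ ((Polynomial.nthRoots 3 c).toFinset).card := Finset.card_le_card h1
    _ ≤ Multiset.card (Polynomial.nthRoots 3 c) := Multiset.toFinset_card_le _
    _ ≤ 3 := Polynomial.card_nthRoots 3 c

theorem ff_main {a b : F} (ha : a ≠ 0) (hb : b ≠ 0)
    (H : ∀ x y z : F, x ^ 3 = a * y ^ 3 + b * z ^ 3 → x = 0 ∧ y = 0 ∧ z = 0) : False := by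
  -- disjointness
  have d01 : ∀ x, x ∈ Cc (1 : F) → x ∉ Cc a := by
    intro x h0 h1
    obtain ⟨t, ht, rfl⟩ := mem_Cc.1 h0
    obtain ⟨s, hs, h⟩ := mem_Cc.1 h1
    exact ht (H t s 0 (by rw [h]; ring)).1
  have d02 : ∀ x, x ∈ Cc (1 : F) → x ∉ Cc b := by
    intro x h0 h1
    obtain ⟨t, ht, rfl⟩ := mem_Cc.1 h0
    obtain ⟨s, hs, h⟩ := mem_Cc.1 h1
    exact ht (H t 0 s (by rw [h]; ring)).1
  have d12 : ∀ x, x ∈ Cc a → x ∉ Cc b := by
    intro x h0 h1
    obtain ⟨t, ht, rfl⟩ := mem_Cc.1 h0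
    obtain ⟨s, hs, h⟩ := mem_Cc.1 h1
    exact ht (H 0 t (-s) (by linear_combination h)).2.1
  -- covering
  have hdis1 : Disjoint (Cc (1 : F)) (Cc a) := Finset.disjoint_left.2 d01
  have hdis2 : Disjoint (Cc (1 : F) ∪ Cc a) (Cc b) := by
    rw [Finset.disjoint_left]
    intro x hx
    rcases Finset.mem_union.1 hx with h | h
    · exact d02 x h
    · exact d12 x h
  have hcard : (Cc (1 : F) ∪ Cc a ∪ Cc b).card = 3 * (Cc (1 : F)).card := by
    rw [Finset.card_union_of_disjoint hdis2, Finset.card_union_of_disjoint hdis1, Cc_card ha,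
      Cc_card hb]
    ring
  have hcov : Cc (1 : F) ∪ Cc a ∪ Cc b = Finset.univ.filter fun t : F => t ≠ 0 := by
    refine Finset.eq_of_subset_of_card_le ?_ ?_
    · intro x hx
      rw [Finset.mem_filter]
      refine ⟨Finset.mem_univ _, ?_⟩
      rcases Finset.mem_union.1 hx with h | h
      · rcases Finset.mem_union.1 h with h | h
        · exact Cc_ne one_ne_zero h
        · exact Cc_ne ha h
      · exact Cc_ne hb h
    · rw [hcard]
      exact card_ne_le
  have cov : ∀ x : F, x ≠ 0 → x ∈ Cc (1 : F) ∨ x ∈ Cc a ∨ x ∈ Cc b := by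
    intro x hx
    have h1 : x ∈ Cc (1 : F) ∪ Cc a ∪ Cc b := by
      rw [hcov, Finset.mem_filter]
      exact ⟨Finset.mem_univ _, hx⟩
    rcases Finset.mem_union.1 h1 with h | h
    · rcases Finset.mem_union.1 h with h | h
      · exact Or.inl h
      · exact Or.inr (Or.inl h)
    · exact Or.inr (Or.inr h)
  -- the product is a cube
  obtain ⟨c, hc0, hc⟩ : ∃ c : F, c ≠ 0 ∧ c ^ 3 = a * b := by
    rcases cov (a * b) (mul_ne_zero ha hb) with h | h | h
    · obtain ⟨t, ht, h⟩ := mem_Cc.1 h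
      exact ⟨t, ht, by rw [← h, one_mul]⟩
    · exfalso
      obtain ⟨t, ht, h⟩ := mem_Cc.1 h
      have h2 : t ^ 3 = b := mul_left_cancel₀ ha h
      exact ht (H t 0 1 (by rw [h2]; ring)).1
    · exfalso
      obtain ⟨t, ht, h⟩ := mem_Cc.1 h
      have h2 : t ^ 3 = a := mul_left_cancel₀ hb (by rw [h, mul_comm])
      exact ht (H t 1 0 (by rw [h2]; ring)).1
  -- the numbers
  set A1 : Finset F := (Cc (1 : F)).filter fun x => 1 - x ∈ Cc a with hA1
  set A2 : Finset F := (Cc (1 : F)).filter fun x => 1 - x ∈ Cc b with hA2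
  set P : Finset (F × F) := Cc (1 : F) ×ˢ Cc a with hP
  set P1 : Finset (F × F) := P.filter fun q => q.1 + q.2 ∈ Cc (1 : F) with hP1
  set P2 : Finset (F × F) := P.filter fun q => q.1 + q.2 ∈ Cc a with hP2
  have hPc : P.card = (Cc (1 : F)).card * (Cc (1 : F)).card := by
    rw [hP, Finset.card_product, Cc_card ha]
  have hPu : P ⊆ P1 ∪ P2 := by
    rintro ⟨x, y⟩ hq
    have hq' := hq
    rw [hP, Finset.mem_product] at hq'
    obtain ⟨hx, hy⟩ := hq'
    obtain ⟨s, hs, hsx⟩ := mem_Cc.1 hx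
    obtain ⟨t, ht, hty⟩ := mem_Cc.1 hy
    simp only at hsx hty
    have hne : x + y ≠ 0 := by
      intro h0
      refine ht (H (-s) t 0 ?_).2.1
      linear_combination (-1 : F) * hsx - hty - h0
    rcases cov (x + y) hne with h | h | h
    · exact Finset.mem_union_left _ (Finset.mem_filter.2 ⟨hq, h⟩)
    · exact Finset.mem_union_right _ (Finset.mem_filter.2 ⟨hq, h⟩)
    · exfalso
      obtain ⟨r, hr, h⟩ := mem_Cc.1 h
      refine hs (H s (-t) r ?_).1
      linear_combination hsx + hty - h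
  have hP1c : P1.card ≤ (Cc (1 : F)).card * A1.card := by
    rw [← Finset.card_product]
    refine Finset.card_le_card_of_injOn (fun q => (q.1 + q.2, q.1 / (q.1 + q.2))) ?_ ?_
    · rintro ⟨x, y⟩ hq
      rw [Finset.mem_coe, hP1, Finset.mem_filter, hP, Finset.mem_product] at hq
      obtain ⟨⟨hx, hy⟩, hxy⟩ := hq
      obtain ⟨s, hs, hsx⟩ := mem_Cc.1 hx
      obtain ⟨t, ht, hty⟩ := mem_Cc.1 hy
      obtain ⟨r, hr, hrx⟩ := mem_Cc.1 hxy
      simp only at hsx hty hrx hxy ⊢
      rw [Finset.mem_coe, Finset.mem_product]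
      refine ⟨hxy, Finset.mem_filter.2 ⟨mem_Cc.2 ⟨s / r, div_ne_zero hs hr, ?_⟩,
        mem_Cc.2 ⟨t / r, div_ne_zero ht hr, ?_⟩⟩⟩
      · show (1 : F) * (s / r) ^ 3 = x / (x + y)
        rw [← hrx, ← hsx, div_pow, one_mul, one_mul, one_mul]
      · show a * (t / r) ^ 3 = 1 - x / (x + y)
        have h1 : x + y ≠ 0 := Cc_ne one_ne_zero hxy
        have h2 : 1 - x / (x + y) = y / (x + y) := by
          field_simp
          ring
        rw [h2, ← hrx, ← hty, div_pow, one_mul, mul_div_assoc]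
    · rintro ⟨x, y⟩ hq ⟨x', y'⟩ hq' h
      rw [Finset.mem_coe, hP1, Finset.mem_filter] at hq
      simp only [Prod.mk.injEq] at h
      obtain ⟨h1, h2⟩ := h
      have h3 : x + y ≠ 0 := Cc_ne one_ne_zero hq.2
      rw [h1, div_left_inj' (by rwa [h1] at h3)] at h2
      subst h2
      have h4 : y = y' := add_left_cancel h1
      rw [h4]
  have hP2c : P2.card ≤ (Cc (1 : F)).card * A2.card := by
    rw [← Cc_card ha, ← Finset.card_product]
    refine Finset.card_le_card_of_injOn (fun q => (q.1 + q.2, q.2 / (q.1 + q.2))) ?_ ?_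
    · rintro ⟨x, y⟩ hq
      rw [Finset.mem_coe, hP2, Finset.mem_filter, hP, Finset.mem_product] at hq
      obtain ⟨⟨hx, hy⟩, hxy⟩ := hq
      obtain ⟨s, hs, hsx⟩ := mem_Cc.1 hx
      obtain ⟨t, ht, hty⟩ := mem_Cc.1 hy
      obtain ⟨r, hr, hrx⟩ := mem_Cc.1 hxy
      simp only at hsx hty hrx hxy ⊢
      rw [Finset.mem_coe, Finset.mem_product]
      refine ⟨hxy, Finset.mem_filter.2 ⟨mem_Cc.2 ⟨t / r, div_ne_zero ht hr, ?_⟩,
        mem_Cc.2 ⟨s / (c * r), div_ne_zero hs (mul_ne_zero hc0 hr), ?_⟩⟩⟩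
      · show (1 : F) * (t / r) ^ 3 = y / (x + y)
        rw [← hrx, ← hty, div_pow, one_mul, mul_div_mul_left _ _ ha]
      · show b * (s / (c * r)) ^ 3 = 1 - y / (x + y)
        have h1 : x + y ≠ 0 := Cc_ne ha hxy
        have h2 : 1 - y / (x + y) = x / (x + y) := by
          field_simp
          ring
        rw [h2, ← hrx, ← hsx, div_pow, mul_pow, hc]
        field_simp
    · rintro ⟨x, y⟩ hq ⟨x', y'⟩ hq' h
      rw [Finset.mem_coe, hP2, Finset.mem_filter] at hq
      simp only [Prod.mk.injEq] at h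
      obtain ⟨h1, h2⟩ := h
      have h3 : x + y ≠ 0 := Cc_ne ha hq.2
      rw [h1, div_left_inj' (by rwa [h1] at h3)] at h2
      subst h2
      have h4 : x = x' := add_right_cancel h1
      rw [h4]
  -- the contradiction
  have hA : A1.card + A2.card + 1 ≤ (Cc (1 : F)).card := by
    have hd : Disjoint A1 A2 := by
      rw [Finset.disjoint_left]
      intro x h1 h2
      exact d12 _ (Finset.mem_filter.1 h1).2 (Finset.mem_filter.1 h2).2
    have h1 : (1 : F) ∉ A1 ∪ A2 := by
      intro h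
      rcases Finset.mem_union.1 h with h | h
      · have := (Finset.mem_filter.1 h).2
        rw [sub_self] at this
        exact Cc_ne ha this rfl
      · have := (Finset.mem_filter.1 h).2
        rw [sub_self] at this
        exact Cc_ne hb this rfl
    have h2 : insert (1 : F) (A1 ∪ A2) ⊆ Cc (1 : F) := by
      intro x hx
      rcases Finset.mem_insert.1 hx with h | h
      · rw [h]
        exact mem_Cc.2 ⟨1, one_ne_zero, by ring⟩
      · rcases Finset.mem_union.1 h with h | h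
        · exact (Finset.mem_filter.1 h).1
        · exact (Finset.mem_filter.1 h).1
    have h3 := Finset.card_le_card h2
    rw [Finset.card_insert_of_notMem h1, Finset.card_union_of_disjoint hd] at h3
    exact h3
  have hpos : 0 < (Cc (1 : F)).card :=
    Finset.card_pos.2 ⟨1, mem_Cc.2 ⟨1, one_ne_zero, by ring⟩⟩
  have hle : (Cc (1 : F)).card * (Cc (1 : F)).card ≤
      (Cc (1 : F)).card * A1.card + (Cc (1 : F)).card * A2.card := by
    calc (Cc (1 : F)).card * (Cc (1 : F)).card = P.card := hPc.symm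
      _ ≤ (P1 ∪ P2).card := Finset.card_le_card hPu
      _ ≤ P1.card + P2.card := Finset.card_union_le _ _
      _ ≤ _ := add_le_add hP1c hP2c
  rw [← mul_add] at hle
  have := le_of_mul_le_mul_left hle hpos
  omega

end

theorem t_FF : S_FF := by
  intro F _ _ a b ha hb
  classical
  have := Fintype.ofFinite F
  by_contra hcon
  push Not at hcon
  refine ff_main ha hb fun x y z h => ?_
  by_contra h0
  refine hcon x y z ?_ h
  by_contra h1
  push Not at h1
  exact h0 h1

end Pool.Agent.Y319.CT
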