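import Pool.Agent.Y703.CT.StmF

/-!
# Laplacians with a nontrivial kernel have zero minors
-/

set_option autoImplicit false

namespace Pool.Agent.Y319.CT

open Pool.Agent.Y703.CT

theorem t_DZ : S_DZ := by
  intro ι _ _ a b ε _ _ _ hker
  unfold Pool.Agent.Y715.T.Comb.D
  refine Finset.sum_eq_zero fun r _ => ?_
  have hdet : Pool.Agent.Y715.T.Comb.w a Finset.univ r = 0 := by
    unfold Pool.Agent.Y715.T.Comb.w
    push Not at hker
    obtain ⟨v, hv, i0, j0, hij⟩ := hker
    rw [← Matrix.exists_mulVec_eq_zero_iff]
    refine ⟨fun i => v i - v r, ?_, ?_⟩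
    · intro h0
      have h1 := congrFun h0 i0
      have h2 := congrFun h0 j0
      simp only [Pi.zero_apply] at h1 h2
      exact hij (by rw [sub_eq_zero.1 h1, sub_eq_zero.1 h2])
    · funext i
      rw [Matrix.mulVec, dotProduct, Pi.zero_apply]
      by_cases hir : i = r
      · refine Finset.sum_eq_zero fun j _ => ?_
        unfold Pool.Agent.Y715.T.Comb.V
        rw [Matrix.of_apply, if_pos (Or.inl hir)]
        by_cases hj : i = j
        · rw [if_pos hj, ← hj, hir, sub_self, mul_zero]
        · rw [if_neg hj, zero_mul]
      · have h1 : ∀ j, Pool.Agent.Y715.T.Comb.V a Finset.univ Finset.univ r i j * (v j - v r) =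
            (if i = j then (∑ l, (if l = i then 0 else a i l)) * (v i - v r) else 0) -
              (if j = i then 0 else a i j) * (v j - v r) := by
          intro j
          unfold Pool.Agent.Y715.T.Comb.V
          rw [Matrix.of_apply, if_neg (by
            rintro (h | h)
            · exact hir h
            · exact h (Finset.mem_univ i))]
          by_cases hj : i = j
          · subst hj
            rw [if_pos rfl, if_pos rfl, if_pos rfl, zero_mul, sub_zero]
          · have hj' : ¬ j = i := fun h => hj h.symm
            rw [if_neg hj, if_neg hj, if_pos (Finset.mem_univ j), if_neg hj']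
            ring
        rw [Finset.sum_congr rfl fun j _ => h1 j, Finset.sum_sub_distrib,
          Finset.sum_ite_eq, if_pos (Finset.mem_univ i), Finset.sum_mul, ← Finset.sum_sub_distrib,
          ← hv i]
        refine Finset.sum_congr rfl fun j _ => ?_
        by_cases hj : j = i
        · rw [if_pos hj, hj]
          ring
        · rw [if_neg hj]
          ring
  rw [hdet, mul_zero]

end Pool.Agent.Y319.CT
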